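import Pool.Agent.Helper11U.Lin

/-!
# Finite generation of K'_0 and K'_1, and finite presentation of linear groups

For sets `E_1, …, E_c` of at most three pairs `(i, j)` let
`A_E = R[z, x, y] / (∑_l z_l ∑_{(i, j) ∈ E_l} x_i y_j - 1)`, a smooth algebra over `R` (`Cub R E`).
`LinThy` lists the properties of Quillen's groups `K'_n(X)` of schemes of finite type over `ℤ` which are
used.
-/

set_option autoImplicit false

open Pool.Agent.Helper11U Pool.Agent.Y116.UV Pool.Agent.R904.CU Pool.Agent.R904.TR AlgebraicGeometry

namespace Pool.Agent.Results.MP_e17fa799_al.FinitelyPresentedLinear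

/-- **Theorem.** Let `R` be a regular quotient ring of `ℤ`, for instance `ℤ` or a prime field `𝔽_p`. The
groups `K'_0(X)` and `K'_1(X)` are finitely generated for all regular schemes `X` of finite type over `R`
if and only if for all `E` the group `GL_N(A_E)` is finitely presented for all large `N`. -/
theorem result (K : LinThy) (R : Type) [CommRing R] [IsRegularRing R]
    (hR : Function.Surjective (Int.cast : ℤ → R)) :
    K.RegTo R 1 ↔ ForShortCubics R fun A _ => LinearFP A := by
  have h := regTo_coe K R 1
  rw [Nat.cast_one] at h
  rw [h, reg_iff K hR 1]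
  exact fp_iff K hR

end Pool.Agent.Results.MP_e17fa799_al.FinitelyPresentedLinear
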