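import Pool.Agent.Helper11U.Lin

/-!
# Bass's finite generation conjecture, degree by degree, and the homology of linear groups

For sets `E_1, …, E_c` of at most three pairs `(i, j)` let
`A_E = R[z, x, y] / (∑_l z_l ∑_{(i, j) ∈ E_l} x_i y_j - 1)`, a smooth algebra over `R` (`Cub R E`).

`LinThy` lists the properties of Quillen's groups `K'_n(X)` of schemes of finite type over `ℤ` which are
used: localization, homotopy invariance for the affine bundles of Jouanolou, the fundamental theorem,
finite generation in dimension at most one (Quillen, Harder), the fact that finitely generated rings are
excellent, and, for a regular ring `A` which is finitely generated over `ℤ`, the relation of `K_1(A)`,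
`K_2(A)`, `K_n(A)` with the groups `GL_N(A)` for large `N` (stability theorems of Bass, Vaserstein,
Dennis, van der Kallen, Suslin, Tulenbaev; the theorem of Krstić and McCool on Steinberg groups; the
homology of the space `BGL(A)⁺`).

The hypersurface `A_E` is an affine bundle over the complement of the zero set `Y` of the bilinear forms
`∑_{(i, j) ∈ E_l} x_i y_j` in an affine space, so that the localization sequence compares `K'_{n+1}(A_E)`
with `K'_n(Y)`; and the systems of bilinear equations with at most three terms decide every property of
schemes of finite type which is closed under closed-open decompositions and descends from `X × 𝔾_m` to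
`X` (starting files).
-/

set_option autoImplicit false

open Pool.Agent.Helper11U Pool.Agent.Y116.UV Pool.Agent.R904.CU Pool.Agent.R904.TR AlgebraicGeometry

namespace Pool.Agent.Results.MP_e17fa799_al.HomologyOfLinearGroups

/-- **Theorem.** Let `R` be a regular quotient ring of `ℤ`, for instance `ℤ` or a prime field `𝔽_p`, and
`n = 0, 1, 2, …` or `n = ∞`. The following are equivalent: the groups `K'_m(X)`, `m ≤ n`, are finitely
generated for all regular schemes `X` of finite type over `R`; they are finitely generated for all
schemes `X` of finite type over `R`; for all `E` the homology groups `H_i(GL_N(A_E), ℤ)` with `i ≤ n + 1`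
are finitely generated for large `N`. (For `R = ℤ` and `n = ∞` the first statement is Bass's conjecture.) -/
theorem result (K : LinThy) (R : Type) [CommRing R] [IsRegularRing R]
    (hR : Function.Surjective (Int.cast : ℤ → R)) (n : ℕ∞) :
    (K.RegTo R n ↔ K.AllTo R n) ∧
      (K.RegTo R n ↔
        ForShortCubics R fun A _ => ∀ i : ℕ, (i : ℕ∞) ≤ n + 1 → HomologyFG i A) :=
  ⟨regTo_iff K R hR n, (regTo_iff K R hR n).trans (allTo_iff K R hR n)⟩

end Pool.Agent.Results.MP_e17fa799_al.HomologyOfLinearGroups
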