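import Pool.Agent.Helper13HG.Bass

/-!
# Bass's conjecture and the hypersurfaces of tricoloured hypergraphs
-/

set_option autoImplicit false

open CategoryTheory AlgebraicGeometry MvPolynomial
open Pool.Agent.R904.CU Pool.Agent.R904.TR Pool.Agent.Y116.UV Pool.Agent.Z125.UN
open Pool.Agent.Helper13HG Pool.Agent.Helper13B

namespace Pool.Agent.Results.MP_e17fa799_al.TricolouredHypersurfaces

/-- The spectrum of `R[x] / (f)`. -/
noncomputable abbrev ZeroSch {R : Type} [CommRing R] {V : Type} (f : MvPolynomial V R) : Scheme.{0} :=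
  Spec (.of (MvPolynomial V R ⧸ Ideal.span {f}))

/-- The hypersurface `∑_{e ∈ H} ∏_{i ∈ e} x_i = 0` over `R`. -/
noncomputable abbrev HypR (R : Type) [CommRing R] {V : Type} (H : Finset (Finset V)) :
    Scheme.{0} := ZeroSch (MvPolynomial.map (algebraMap ℤ R) (hyp H))

/-- The groups `K'_n(X)` are finitely generated for all regular schemes `X` of finite type over
`R`. -/
def RegFin (K : KThy) (R : Type) [CommRing R] : Prop :=
  ∀ (X : Scheme.{0}) (f : X ⟶ Spec (.of R)), FinType R X f → IsRegularScheme X → K.Fin X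

theorem general (K : KThy) (R : Type) [CommRing R] [Nontrivial R] [IsRegularRing R]
    (hR : Function.Surjective (Int.cast : ℤ → R)) :
    (RegFin K R ↔
      ∀ (V : Type) [Fintype V] (H : Finset (Finset V)), Tri H → K.Fin (HypR R H)) ∧
    ∀ (n : ℕ) (f : MvPolynomial (Fin n) R), f ≠ 0 →
      ∃ (V : Type) (_ : Fintype V) (H : Finset (Finset V)), Tri H ∧
        (K.Fin (HypR R H) ↔ K.Fin (ZeroSch f)) := by
  have hN : IsNoetherianRing R := isNoetherianRing_of_surjective ℤ R (Int.castRingHom R) hR
  have hF : Algebra.FiniteType ℤ R := Algebra.FiniteType.of_surjective (Algebra.ofId ℤ R) hR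
  have hd : ringKrullDim R ≤ 1 :=
    (ringKrullDim_le_of_surjective (Int.castRingHom R) hR).trans dim_int
  have hB : Bnd False fun X : Sch R => K.Fin X.left := bnd K False (fin_dim_one K R hd)
  have hu : (∀ (a b c : ℕ) (T : Fin a → Fin b → Fin c → R),
      (∀ i j k, T i j k ∈ ({0, 1} : Set R)) → K.Fin (hypS T).left) →
      ∀ X : Sch R, FT False X → K.Fin X.left := fun h X hX =>
    universal (R := R) (S := {0, 1}) hB.toUni (Or.inl rfl) (Or.inr rfl)
      (fun a b c T hT => h a b c T hT) (presents_zero_one hR) X hX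
  refine ⟨⟨fun h V _ H _ => ?_, fun h => ?_⟩, fun n f hf => exists_tri hB hR f hf⟩
  · refine hu (fun a b c T _ => ?_) (aff R (MvPolynomial V R ⧸
      Ideal.span {MvPolynomial.map (algebraMap ℤ R) (hyp H)})) (ft_aff False)
    have hT : FT False (hypS T) := ft_aff False
    exact h _ (hypS T).hom ⟨hT.locallyOfFiniteType, hT.quasiCompact⟩ (regular_hyp T)
  · intro X f hf _
    refine hu (fun a b c T _ => ?_) (Over.mk f : Sch R) ⟨hf.1, hf.2, fun h => h.elim⟩
    let e := renameEquiv R (Fintype.equivFin (Fin a ⊕ (Fin b ⊕ Fin c)))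
    have h1 : tri T - 1 ≠ 0 := by
      intro h0
      have h2 := congrArg (eval (0 : Fin a ⊕ (Fin b ⊕ Fin c) → R)) h0
      rw [tri, map_sub, map_one, map_zero] at h2
      simp [map_sum] at h2
    have h2 : e (tri T - 1) ≠ 0 := fun h0 => h1 ((map_eq_zero_iff e e.injective).mp h0)
    obtain ⟨V, iV, H, h3, h4⟩ := exists_tri hB hR _ h2
    exact (quo_iso hB e (tri T - 1)).mpr (h4.mp (h V H h3))

/-- Bass's conjecture, and its form for the schemes over a regular quotient `R` of `ℤ` (as a finite
prime field), are equivalent to finite generation of the groups `K'_n` of the hypersurfaces of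
tricoloured hypergraphs over `ℤ`, respectively over `R`, and for every nonzero polynomial over `R`
there is a tricoloured hypergraph such that finite generation for the hypersurface of the polynomial
is equivalent to finite generation for the hypersurface of the hypergraph. -/
theorem result (K : KThy) :
    (K.Bass ↔
      ∀ (V : Type) [Fintype V] (H : Finset (Finset V)), Tri H → K.Fin (HypR ℤ H)) ∧
    ∀ (R : Type) [CommRing R] [Nontrivial R] [IsRegularRing R],
      Function.Surjective (Int.cast : ℤ → R) →
      (RegFin K R ↔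
        ∀ (V : Type) [Fintype V] (H : Finset (Finset V)), Tri H → K.Fin (HypR R H)) ∧
      ∀ (n : ℕ) (f : MvPolynomial (Fin n) R), f ≠ 0 →
        ∃ (V : Type) (_ : Fintype V) (H : Finset (Finset V)), Tri H ∧
          (K.Fin (HypR R H) ↔ K.Fin (ZeroSch f)) :=
  ⟨(general K ℤ fun x => ⟨x, rfl⟩).1, fun R _ _ _ hR => general K R hR⟩

end Pool.Agent.Results.MP_e17fa799_al.TricolouredHypersurfaces
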